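import Mathlib
import Pool.Agent.TH779.Ord.Exact

/-! Orbits of `S x = 4 x + 1`: exact patterns of primes among prescribed times, with few repetitions inside the
classes. The structure of the proof is that of `Pool.Agent.TH779.Ord.Exact` (starting files). -/

set_option autoImplicit false

namespace Pool.Agent.J6H13.OR

open Finset Pool.Agent.TH779.Ord

/-- `x ↦ 4 x + 1` -/
def S (x : ℕ) : ℕ := 4 * x + 1

/-- the value of the orbit of `0` -/
def cc (t : ℕ) : ℕ := S^[t] 0

theorem cc_succ (t : ℕ) : cc (t + 1) = 4 * cc t + 1 := by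
  unfold cc
  rw [Function.iterate_succ_apply']
  rfl

theorem three_cc (t : ℕ) : 3 * cc t + 1 = 4 ^ t := by
  induction t with
  | zero => rfl
  | succ t ih =>
    rw [cc_succ, pow_succ, ← ih]
    ring

theorem iter (t n : ℕ) : S^[t] n = 4 ^ t * n + cc t := by
  induction t with
  | zero => simp [cc]
  | succ t ih =>
    rw [Function.iterate_succ_apply', ih, cc_succ]
    unfold S
    ring

theorem cc_lt {t W : ℕ} (h : t ≤ W) : cc t < 4 ^ W := by
  have h1 := three_cc t
  have h2 : 4 ^ t ≤ 4 ^ W := Nat.pow_le_pow_right (by norm_num) h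
  omega

theorem cc_pos {t : ℕ} (h : 0 < t) : 0 < cc t := by
  obtain ⟨s, rfl⟩ := Nat.exists_eq_succ_of_ne_zero h.ne'
  rw [Nat.succ_eq_add_one, cc_succ]
  omega

theorem le_iter (t n : ℕ) : n ≤ S^[t] n := by
  rw [iter]
  have : 1 * n ≤ 4 ^ t * n := Nat.mul_le_mul_right _ (Nat.one_le_pow _ _ (by norm_num))
  omega

/-- a common divisor of two values at different times -/
theorem dvd_cc {q s t n : ℕ} (hst : s < t) (h1 : q ∣ S^[s] n) (h2 : q ∣ S^[t] n) : q ∣ cc (t - s) := by
  have h3 : S^[t] n = 4 ^ (t - s) * S^[s] n + cc (t - s) := by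
    rw [← iter, ← Function.iterate_add_apply]
    congr 1
    omega
  rw [h3] at h2
  exact (Nat.dvd_add_right (h1.mul_left _)).1 h2

/-- congruences which make the values at all other times composite -/
theorem orb_block (W : ℕ) (E : Finset ℕ) (hE : ∀ t ∈ E, t ≤ W) : ∃ Q r : ℕ, 0 < Q ∧
    (∀ t ≤ W, t ∉ E → ∃ q : ℕ, q.Prime ∧ q ∣ Q ∧ q ∣ S^[t] r) ∧
    ∀ q : ℕ, q.Prime → q ∣ Q → (∀ t ∈ E, ¬ q ∣ S^[t] r) ∧ 3 < q := by
  classical
  -- distinct primes above `4 ^ W`
  obtain ⟨q, hq⟩ : ∃ q : ℕ → ℕ, q = fun t => Nat.nth Nat.Prime (4 ^ W + 4 + t) := ⟨_, rfl⟩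
  have hqp : ∀ t, (q t).Prime := fun t => by rw [hq]; exact Nat.prime_nth_prime _
  have hqinj : Function.Injective q := by
    intro s t hst
    rw [hq] at hst
    have := Nat.nth_injective Nat.infinite_setOfPred_prime hst
    omega
  have hqW : ∀ t, 4 ^ W + 4 < q t := by
    intro t
    rw [hq]
    have := Nat.add_two_le_nth_prime (4 ^ W + 4 + t)
    show 4 ^ W + 4 < Nat.nth Nat.Prime (4 ^ W + 4 + t)
    omega
  have hq4 : ∀ t, 4 < q t := fun t => (Nat.le_add_left 4 (4 ^ W)).trans_lt (hqW t)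
  have hz : ∀ t, ∃ r : ℕ, q t ∣ S^[t] r := by
    intro t
    have : Fact (q t).Prime := ⟨hqp t⟩
    have h4 : ((4 : ℕ) : ZMod (q t)) ≠ 0 := by
      rw [Ne, ZMod.natCast_eq_zero_iff]
      intro h
      have := Nat.le_of_dvd (by norm_num) h
      have := hq4 t
      omega
    push_cast at h4
    refine ⟨(-(cc t : ZMod (q t)) / (4 : ZMod (q t)) ^ t).val, ?_⟩
    rw [iter, ← ZMod.natCast_eq_zero_iff]
    push_cast
    rw [ZMod.natCast_zmod_val]
    field_simp
    ring
  choose z hz using hz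
  set U : Finset ℕ := (range (W + 1)).filter fun t => t ∉ E with hU
  have hpair : Set.Pairwise (U : Set ℕ) (Function.onFun Nat.Coprime q) := by
    intro s _ t _ hst
    exact (Nat.coprime_primes (hqp s) (hqp t)).2 fun h => hst (hqinj h)
  obtain ⟨r, hr⟩ := Nat.chineseRemainderOfFinset z q U (fun t _ => (hqp t).ne_zero) hpair
  have hrd : ∀ t ∈ U, q t ∣ S^[t] r := by
    intro t ht
    have h1 := hr t ht
    have h2 : S^[t] r ≡ S^[t] (z t) [MOD q t] := by
      rw [iter, iter]
      exact (h1.mul_left _).add_right _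
    exact (Nat.ModEq.dvd_iff h2 dvd_rfl).2 (hz t)
  refine ⟨∏ t ∈ U, q t, r, prod_pos fun t _ => (hqp t).pos, ?_, ?_⟩
  · intro t ht hne
    have htU : t ∈ U := by rw [hU, mem_filter, mem_range]; exact ⟨by omega, hne⟩
    exact ⟨q t, hqp t, dvd_prod_of_mem q htU, hrd t htU⟩
  · intro p hp hpQ
    obtain ⟨t, htU, hpt⟩ := (hp.prime.dvd_finsetProd_iff _).1 hpQ
    have hpq : p = q t := (Nat.prime_dvd_prime_iff_eq hp (hqp t)).1 hpt
    subst hpq
    refine ⟨?_, by have := hq4 t; omega⟩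
    intro s hs hd
    have htE : t ∉ E := (mem_filter.1 htU).2
    have htW : t ≤ W := by
      have := (mem_filter.1 htU).1
      rw [mem_range] at this; omega
    have hsW := hE s hs
    have h1 := hrd t htU
    have key : ∀ d : ℕ, 0 < d → d ≤ W → ¬ q t ∣ cc d := by
      intro d hd0 hdW hdd
      have h2 := Nat.le_of_dvd (cc_pos hd0) hdd
      have h3 := cc_lt hdW
      have h4 := hqW t
      omega
    rcases lt_trichotomy s t with h | h | h
    · exact key (t - s) (by omega) (by omega) (dvd_cc h hd h1)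
    · exact htE (h ▸ hs)
    · exact key (s - t) (by omega) (by omega) (dvd_cc h h1 hd)

/-- a starting point modulo `p` whose orbit does not meet `0` at the times in question -/
theorem start (p : ℕ) (hp : p.Prime) (τ : ℕ → ℕ) (M : ℕ) (h3 : ∃ b : ℕ, ∀ x < M, ¬ 3 ∣ b + τ x) :
    ∃ m : ℕ, ∀ x < M, ¬ p ∣ S^[τ x] m := by
  by_cases hp3 : p = 3
  · obtain ⟨b, hb⟩ := h3
    refine ⟨b, fun x hx hd => hb x hx ?_⟩
    rw [hp3] at hd
    have h1 : ∀ t n : ℕ, S^[t] n ≡ n + t [MOD 3] := by
      intro t n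
      induction t with
      | zero => rfl
      | succ t ih =>
        rw [Function.iterate_succ_apply']
        unfold S
        have h2 : 4 * S^[t] n + 1 ≡ 4 * (n + t) + 1 [MOD 3] := (ih.mul_left 4).add_right 1
        refine h2.trans ?_
        rw [Nat.ModEq]
        omega
    exact (Nat.ModEq.dvd_iff (h1 (τ x) b) dvd_rfl).1 hd
  · have : Fact p.Prime := ⟨hp⟩
    have h3 : ((3 : ℕ) : ZMod p) ≠ 0 := by
      rw [Ne, ZMod.natCast_eq_zero_iff]
      intro h
      exact hp3 ((Nat.prime_dvd_prime_iff_eq hp (by norm_num)).1 h)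
    push_cast at h3
    refine ⟨(-1 / (3 : ZMod p)).val, fun x _ hd => ?_⟩
    rw [iter, ← ZMod.natCast_eq_zero_iff] at hd
    push_cast at hd
    rw [ZMod.natCast_zmod_val] at hd
    have h5 : (3 : ZMod p) * cc (τ x) + 1 = 4 ^ (τ x) := by
      have := congrArg (Nat.cast : ℕ → ZMod p) (three_cc (τ x))
      push_cast at this
      exact this
    have h6 : (3 : ZMod p) * (4 ^ (τ x) * (-1 / 3) + cc (τ x)) = -1 := by
      have h7 : (3 : ZMod p) * (4 ^ (τ x) * (-1 / 3) + cc (τ x)) = -4 ^ (τ x) + 3 * cc (τ x) := by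
        field_simp
      rw [h7, ← h5]
      ring
    rw [hd, mul_zero] at h6
    have h8 : (1 : ZMod p) = 0 := by
      have := congrArg Neg.neg h6
      simpa using this.symm
    exact one_ne_zero h8

/-- exact patterns among prescribed times `τ x`, `x < T K` -/
theorem exact_orb (T : ℕ) (lam : ℝ) (hTp : 1 ≤ T) (hlam : 1 ≤ lam) :
    ∃ K : ℕ, 2 ≤ K ∧ ∀ τ : ℕ → ℕ,
      (∀ x < T * K, ∀ y < T * K, τ x = τ y → x = y) → (∃ b : ℕ, ∀ x < T * K, ¬ 3 ∣ b + τ x) →
      ∃ J : Finset ℕ, (∀ x ∈ J, x < T * K) ∧ (T : ℝ) / (40 * lam) ≤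
        ∑ g ∈ range T, fn lam (J.filter (fun x => x / K = g)).card ∧
        {n : ℕ | (∀ x ∈ J, (S^[τ x] n).Prime) ∧
          ∀ y : ℕ, (∃ x < T * K, y ≤ τ x) → (S^[y] n).Prime → ∃ x ∈ J, y = τ x}.Infinite := by
  classical
  obtain ⟨K, hK, hmain⟩ := few_nat T lam hTp hlam
  refine ⟨K, hK, ?_⟩
  intro τ hinj h3
  set M := T * K with hM
  set W := (range M).sup τ with hW
  have hxW : ∀ x < M, τ x ≤ W := fun x hx => le_sup (f := τ) (mem_range.2 hx)
  set E := (range M).image τ with hE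
  obtain ⟨Q, r, hQ, hb1, hb2⟩ := orb_block W E (by
    intro t ht
    obtain ⟨x, hx, rfl⟩ := mem_image.1 ht
    exact hxW x (mem_range.1 hx))
  have hval : ∀ t m, 4 ^ t * Q * m + S^[t] r = S^[t] (Q * m + r) := by
    intro t m
    rw [iter, iter]
    ring
  have hfew := hmain (fun x => 4 ^ τ x * Q) (fun x => S^[τ x] r)
    (fun _ _ => Nat.mul_pos (by positivity) hQ)
    (by
      intro x hx y hy h1 _
      have h2 : 4 ^ τ x = 4 ^ τ y := Nat.eq_of_mul_eq_mul_right hQ h1
      exact hinj x hx y hy (Nat.pow_right_injective (by norm_num) h2))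
    (by
      intro p hp
      by_cases hpQ : p ∣ Q
      · refine ⟨0, fun x hx hd => ?_⟩
        rw [mul_zero, zero_add] at hd
        exact (hb2 p hp hpQ).1 (τ x) (mem_image_of_mem _ (mem_range.2 hx)) hd
      · obtain ⟨m, hm⟩ := start p hp τ M h3
        have : Fact p.Prime := ⟨hp⟩
        have hQZ : (Q : ZMod p) ≠ 0 := fun h => hpQ ((ZMod.natCast_eq_zero_iff _ _).1 h)
        refine ⟨(((m : ZMod p) - r) / Q).val, fun x hx hd => hm x hx ?_⟩
        rw [hval] at hd
        have h1 : ((Q * (((m : ZMod p) - r) / Q).val + r : ℕ) : ZMod p) = (m : ℕ) := by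
          push_cast
          rw [ZMod.natCast_zmod_val]
          field_simp
          ring
        have h2 : Q * (((m : ZMod p) - r) / Q).val + r ≡ m [MOD p] := (ZMod.natCast_eq_natCast_iff _ _ _).1 h1
        have h3 : S^[τ x] (Q * (((m : ZMod p) - r) / Q).val + r) ≡ S^[τ x] m [MOD p] := by
          rw [iter, iter]
          exact (h2.mul_left _).add_right _
        exact (Nat.ModEq.dvd_iff h3 dvd_rfl).1 hd)
  -- the pattern at `t`
  set Jt : ℕ → Finset ℕ := fun t =>
    (range M).filter (fun x => (4 ^ τ x * Q * t + S^[τ x] r).Prime) with hJt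
  set Sset : Set ℕ := {t : ℕ | 2 ≤ t ∧ (T : ℝ) / (40 * lam) ≤
    ∑ g ∈ range T, fn lam ((Jt t).filter (fun x => x / K = g)).card} with hSset
  have hinf : Sset.Infinite := by
    rw [Set.infinite_iff_exists_gt]
    intro N0
    obtain ⟨t, ht1, ht2⟩ := hfew (N0 + 2)
    refine ⟨t, ⟨by omega, ht2.trans (le_of_eq ?_)⟩, by omega⟩
    apply sum_congr rfl
    intro g _
    congr 2
    ext x
    simp only [hJt, mem_filter, mem_range]
    tauto
  have hcover : Sset ⊆ ⋃ J : Set.Elem (((range M).powerset : Finset (Finset ℕ)) : Set (Finset ℕ)),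
      {t ∈ Sset | Jt t = J.1} := by
    intro t ht
    rw [Set.mem_iUnion]
    refine ⟨⟨Jt t, ?_⟩, ht, rfl⟩
    rw [mem_coe, mem_powerset]
    exact filter_subset _ _
  have : ∃ J : Finset ℕ, {t ∈ Sset | Jt t = J}.Infinite := by
    by_contra hcon
    push Not at hcon
    apply hinf
    apply Set.Finite.subset _ hcover
    exact Set.finite_iUnion (fun J => hcon J.1)
  obtain ⟨J, hJ⟩ := this
  obtain ⟨t₀, ht₀⟩ := hJ.nonempty
  have hJM : ∀ x ∈ J, x < M := by
    intro x hx
    rw [← ht₀.2, hJt] at hx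
    exact mem_range.1 (mem_filter.1 hx).1
  refine ⟨J, hJM, ?_, ?_⟩
  · have := ht₀.1.2
    rw [ht₀.2] at this
    exact this
  · have hinj' : Set.InjOn (fun t : ℕ => Q * t + r) {t ∈ Sset | Jt t = J} := by
      intro t _ t' _ e
      have e' : Q * t = Q * t' := by
        simp only at e
        omega
      exact Nat.eq_of_mul_eq_mul_left hQ e'
    apply (hJ.image hinj').mono
    rintro _ ⟨t, ⟨ht1, ht2⟩, rfl⟩
    refine ⟨?_, ?_⟩
    · intro x hx
      rw [← ht2, hJt, mem_filter] at hx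
      simp only
      rw [← hval]
      exact hx.2
    · rintro y ⟨x, hx, hy⟩ hp
      simp only at hp
      have hyW : y ≤ W := hy.trans (hxW x hx)
      by_cases hyE : y ∈ E
      · obtain ⟨x', hx', he⟩ := mem_image.1 hyE
        refine ⟨x', ?_, he.symm⟩
        rw [← ht2, hJt, mem_filter]
        refine ⟨hx', ?_⟩
        rw [hval, he]
        exact hp
      · exfalso
        obtain ⟨p, hp1, hp2, hp3⟩ := hb1 y hyW hyE
        have h1 : p ∣ S^[y] (Q * t + r) := by
          rw [← hval]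
          exact dvd_add ((hp2.mul_left _).mul_right _) hp3
        have h2 : p = S^[y] (Q * t + r) := (Nat.prime_dvd_prime_iff_eq hp1 hp).1 h1
        have h3 : p ≤ Q := Nat.le_of_dvd hQ hp2
        have h4 : 2 ≤ t := ht1.1
        have h5 : Q * 2 ≤ Q * t := Nat.mul_le_mul_left _ h4
        have h6 := le_iter y (Q * t + r)
        omega

end Pool.Agent.J6H13.OR
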