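import Mathlib
import Pool.Agent.J6H13.OR.Orb
import Pool.Agent.J6H13.PR.Occ

/-! Every box of classes of times contains `k` times in different classes at which the values of the orbits are
primes infinitely often, with at most `r` other prime values between them. -/

set_option autoImplicit false

namespace Pool.Agent.J6H13.OR

open Finset Pool.Agent.TH779.Ord Pool.Agent.J6H13.PR

/-- for infinitely many `n` the values of the orbit of `n` at the times `t ∈ E` are prime, and at most `r` values at
other times between two elements of `E` are prime -/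
def Occ (r : ℕ) (E : Finset ℕ) : Prop :=
  {n : ℕ | (∀ t ∈ E, (S^[t] n).Prime) ∧
    {y : ℕ | y ∉ E ∧ (∃ s ∈ E, s < y) ∧ (∃ t ∈ E, y < t) ∧ (S^[y] n).Prime}.ncard ≤ r}.Infinite

theorem box_orb (k r : ℕ) (hk : 1 ≤ k) : ∃ K : ℕ, 2 ≤ K ∧
    ∀ h : ℕ → ℕ, (∀ x < TT k r * K, ∀ y < TT k r * K, h x = h y → x = y) →
      (∃ b : ℕ, ∀ x < TT k r * K, ¬ 3 ∣ b + h x) →
      ∃ I : Finset ℕ, (∀ x ∈ I, x < TT k r * K) ∧ I.card = k ∧
        (∀ x ∈ I, ∀ y ∈ I, x / K = y / K → x = y) ∧ Occ r (I.image h) := by
  classical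
  set T := TT k r with hT
  obtain ⟨L, hL⟩ : ∃ L : ℕ, L = k / (r + 1) + 2 := ⟨_, rfl⟩
  have hL2 : 2 ≤ L := by
    rw [hL]
    exact Nat.le_add_left _ _
  have hTL : T = 40 * k * L := by rw [hL]; rfl
  have hT1 : 1 ≤ T := by
    rw [hTL]
    exact Nat.succ_le_of_lt (Nat.mul_pos (by omega) (by omega))
  have hL1 : (1 : ℝ) ≤ L := by exact_mod_cast (by omega : 1 ≤ L)
  obtain ⟨K, hK, hmain⟩ := exact_orb T (L : ℝ) hT1 hL1
  refine ⟨K, hK, ?_⟩
  intro h hinj hadm
  obtain ⟨J, hJ, hsum, hinf⟩ := hmain h hinj hadm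
  set m : ℕ → ℕ := fun g => (J.filter (fun x => x / K = g)).card with hm
  have hgT : ∀ x ∈ J, x / K < T := fun x hx => (Nat.div_lt_iff_lt_mul (by omega)).2 (hJ x hx)
  set A' := J.filter (fun x => m (x / K) = 1) with hA'
  set G' := J.filter (fun x => m (x / K) ≠ 1) with hG'
  have hAcard : A'.card = ∑ g ∈ range T, (if m g = 1 then 1 else 0) := by
    rw [card_eq_sum_card_fiberwise (f := fun x => x / K) (t := range T)
      (fun x hx => mem_range.2 (hgT x (mem_filter.1 hx).1))]
    apply sum_congr rfl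
    intro g _
    have e : A'.filter (fun x => x / K = g) =
        (J.filter (fun x => x / K = g)).filter (fun _ => m g = 1) := by
      rw [hA', filter_filter, filter_filter]
      apply filter_congr
      intro x _
      constructor
      · rintro ⟨h1, h2⟩
        rw [h2] at h1
        exact ⟨h2, h1⟩
      · rintro ⟨h1, h2⟩
        rw [h1]
        exact ⟨h2, rfl⟩
    rw [e]
    by_cases hg : m g = 1
    · simp only [hg, if_true, filter_true]
      exact hg
    · simp only [hg, if_false, filter_false, card_empty]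
  have hGcard : G'.card = ∑ g ∈ range T, (if m g = 1 then 0 else m g) := by
    rw [card_eq_sum_card_fiberwise (f := fun x => x / K) (t := range T)
      (fun x hx => mem_range.2 (hgT x (mem_filter.1 hx).1))]
    apply sum_congr rfl
    intro g _
    have e : G'.filter (fun x => x / K = g) =
        (J.filter (fun x => x / K = g)).filter (fun _ => ¬ m g = 1) := by
      rw [hG', filter_filter, filter_filter]
      apply filter_congr
      intro x _
      constructor
      · rintro ⟨h1, h2⟩
        rw [h2] at h1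
        exact ⟨h2, h1⟩
      · rintro ⟨h1, h2⟩
        rw [h1]
        exact ⟨h2, rfl⟩
    rw [e]
    by_cases hg : m g = 1
    · simp only [hg, not_true_eq_false, if_true, filter_false, card_empty]
    · simp only [hg, not_false_eq_true, if_false, filter_true]
      rfl
  have hmany : k + (L - 1) * G'.card ≤ A'.card := by
    have h1 : (T : ℝ) / (40 * L) = k := by
      rw [hTL]
      push_cast
      have : (L : ℝ) ≠ 0 := by positivity
      field_simp
    rw [h1] at hsum
    have h2 : (k : ℝ) ≤ (A'.card : ℝ) - ((L : ℝ) - 1) * (G'.card : ℝ) := by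
      refine hsum.trans ((sum_le_sum (fun g _ => fn_bound L (by omega) (m g))).trans ?_)
      rw [sum_sub_distrib, ← mul_sum, hAcard, hGcard]
      push_cast
      exact le_rfl
    have h3 : ((L - 1 : ℕ) : ℝ) = (L : ℝ) - 1 := by
      rw [Nat.cast_sub (by omega)]
      simp
    have h4 : ((k + (L - 1) * G'.card : ℕ) : ℝ) ≤ (A'.card : ℝ) := by
      push_cast [h3]
      linarith
    exact_mod_cast h4
  have hinjJ : Set.InjOn h (J : Set ℕ) := fun x hx y hy e => hinj x (hJ x hx) y (hJ y hy) e
  have hcA : (A'.image h).card = A'.card :=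
    card_image_of_injOn (hinjJ.mono (by exact_mod_cast filter_subset _ _))
  have hcG : (G'.image h).card = G'.card :=
    card_image_of_injOn (hinjJ.mono (by exact_mod_cast filter_subset _ _))
  obtain ⟨E, hSA, hScard, hconv, hSG⟩ := window k r hk (A'.card / k) (A'.image h) (G'.image h)
    (by rw [hcA]; exact Nat.div_mul_le_self _ _)
    (by
      rw [hcG]
      by_contra hcon
      push Not at hcon
      have h1 : A'.card < (A'.card / k) * k + k := by
        have := Nat.lt_div_mul_add (a := A'.card) (b := k) (by omega)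
        exact this
      have h2 : k < (L - 1) * (r + 1) := by
        have h3 : L - 1 = k / (r + 1) + 1 := by rw [hL]; rfl
        rw [h3]
        have := Nat.lt_mul_div_succ k (show 0 < r + 1 by omega)
        linarith
      have h3 : (L - 1) * G'.card + 1 ≤ (A'.card / k) * k := by omega
      have h4 : ((L - 1) * G'.card + 1) * (r + 1) ≤ ((A'.card / k) * k) * (r + 1) :=
        Nat.mul_le_mul_right _ h3
      have h5 : (A'.card / k) * (r + 1) * k ≤ G'.card * k := Nat.mul_le_mul_right _ hcon
      have h6 : ((A'.card / k) * k) * (r + 1) = (A'.card / k) * (r + 1) * k := by ring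
      have h7 : ((L - 1) * G'.card + 1) * (r + 1) = ((L - 1) * (r + 1)) * G'.card + (r + 1) := by ring
      have h8 : k * G'.card ≤ ((L - 1) * (r + 1)) * G'.card := Nat.mul_le_mul_right _ h2.le
      have h9 : k * G'.card = G'.card * k := mul_comm _ _
      omega)
  set I := A'.filter (fun x => h x ∈ E) with hI
  have hIJ : ∀ x ∈ I, x ∈ J := fun x hx => (mem_filter.1 (mem_filter.1 hx).1).1
  have himg : I.image h = E := by
    ext y
    rw [mem_image]
    constructor
    · rintro ⟨x, hx, rfl⟩
      exact (mem_filter.1 hx).2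
    · intro hy
      obtain ⟨x, hx, rfl⟩ := mem_image.1 (hSA hy)
      exact ⟨x, mem_filter.2 ⟨hx, hy⟩, rfl⟩
  have hIcard : I.card = k := by
    rw [← hScard, ← himg]
    exact (card_image_of_injOn (hinjJ.mono (fun x hx => hIJ x hx))).symm
  refine ⟨I, fun x hx => hJ x (hIJ x hx), hIcard, ?_, ?_⟩
  · intro x hx y hy hxy
    have h1 : m (x / K) = 1 := (mem_filter.1 (mem_filter.1 hx).1).2
    rw [hm] at h1
    obtain ⟨z, hz⟩ := card_eq_one.1 h1
    have hx' : x ∈ J.filter (fun u => u / K = x / K) := mem_filter.2 ⟨hIJ x hx, rfl⟩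
    have hy' : y ∈ J.filter (fun u => u / K = x / K) := mem_filter.2 ⟨hIJ y hy, hxy.symm⟩
    rw [hz, mem_singleton] at hx' hy'
    rw [hx', hy']
  · rw [himg]
    apply hinf.mono
    rintro n ⟨hn2, hn3⟩
    refine ⟨?_, ?_⟩
    · intro s hs
      obtain ⟨x, hx, rfl⟩ := mem_image.1 (hSA hs)
      exact hn2 x (mem_filter.1 hx).1
    · have hsub : {y : ℕ | y ∉ E ∧ (∃ s ∈ E, s < y) ∧ (∃ t ∈ E, y < t) ∧ (S^[y] n).Prime} ⊆
          (((G'.image h).filter (fun y => Btw E y) : Finset ℕ) : Set ℕ) := by
        rintro y ⟨hyE, ⟨s, hs, hsy⟩, ⟨t, ht, hyt⟩, hp⟩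
        obtain ⟨x₀, hx₀, hx₀t⟩ := mem_image.1 (hSA ht)
        obtain ⟨x, hx, hxe⟩ := hn3 y ⟨x₀, hJ x₀ (mem_filter.1 hx₀).1, by
          rw [hx₀t]; exact hyt.le⟩ hp
        have hb : Btw E y := ⟨⟨s, hs, hsy.le⟩, t, ht, hyt.le⟩
        rw [mem_coe, mem_filter]
        refine ⟨?_, hb⟩
        by_cases hxm : m (x / K) = 1
        · exfalso
          apply hyE
          apply hconv y _ hb
          rw [hxe]
          exact mem_image_of_mem h (mem_filter.2 ⟨hx, hxm⟩)
        · rw [hxe]
          exact mem_image_of_mem h (mem_filter.2 ⟨hx, hxm⟩)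
      calc _ ≤ _ := Set.ncard_le_ncard hsub (finite_toSet _)
        _ = _ := Set.ncard_coe_finset _
        _ ≤ r := hSG

end Pool.Agent.J6H13.OR
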