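import Mathlib
import Pool.Agent.J6H13.OR.Box
import Pool.Agent.J6H13.RW.Cnt

/-! Assembly: the proportion of the sets of times. -/

set_option autoImplicit false

namespace Pool.Agent.J6H13.OR

open Finset Pool.Agent.J6H13.PR

/-- a large part of a set misses a class modulo three -/
theorem avoid_three (V : Finset ℕ) : ∃ V' ⊆ V, (∃ b : ℕ, ∀ x ∈ V', ¬ 3 ∣ b + x) ∧ 2 * V.card ≤ 3 * V'.card := by
  classical
  set F : ℕ → Finset ℕ := fun b => V.filter (fun x => ¬ 3 ∣ b + x) with hF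
  have hsum : (F 0).card + (F 1).card + (F 2).card = 2 * V.card := by
    rw [hF]
    simp only [card_filter]
    rw [← sum_add_distrib, ← sum_add_distrib, card_eq_sum_ones, mul_sum]
    apply sum_congr rfl
    intro x _
    have h3 : x % 3 < 3 := Nat.mod_lt _ (by norm_num)
    split_ifs <;> omega
  rcases le_total (F 0).card (F 1).card with h01 | h01
  · rcases le_total (F 1).card (F 2).card with h12 | h12
    · exact ⟨F 2, filter_subset _ _, ⟨2, fun x hx => (mem_filter.1 hx).2⟩, by omega⟩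
    · exact ⟨F 1, filter_subset _ _, ⟨1, fun x hx => (mem_filter.1 hx).2⟩, by omega⟩
  · rcases le_total (F 0).card (F 2).card with h02 | h02
    · exact ⟨F 2, filter_subset _ _, ⟨2, fun x hx => (mem_filter.1 hx).2⟩, by omega⟩
    · exact ⟨F 0, filter_subset _ _, ⟨0, fun x hx => (mem_filter.1 hx).2⟩, by omega⟩

open Classical in
theorem main : ∃ c : ℝ, 0 < c ∧ ∀ k r : ℕ, r < k → ∃ N : ℕ, ∀ V : Finset ℕ, N ≤ V.card →
      (c * (((r : ℝ) + 1) / k)) ^ k * ((V.card).choose k : ℝ) ≤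
        (((V.powersetCard k).filter (fun E => Occ r E)).card : ℝ) := by
  refine ⟨1 / (720 * Real.exp 1), by positivity, fun k r hr => ?_⟩
  have hk : 1 ≤ k := by omega
  obtain ⟨K, hK, hbox⟩ := box_orb k r hk
  obtain ⟨N, hN1, hN⟩ := Pool.Agent.J6H13.RW.bad_gen (TT k r) K (by omega)
  set T := TT k r with hT
  have hkT : k ≤ T := by
    rw [hT]
    unfold TT
    calc k = 1 * k * 1 := by ring
      _ ≤ 40 * k * (k / (r + 1) + 2) := by
        gcongr
        · norm_num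
        · exact Nat.succ_le_of_lt (Nat.succ_pos _)
  -- T (r + 1) ≤ 120 k ^ 2
  have hTr : T * (r + 1) ≤ 120 * k ^ 2 := by
    have h1 : k / (r + 1) * (r + 1) ≤ k := Nat.div_mul_le_self _ _
    have h2 : (k / (r + 1) + 2) * (r + 1) ≤ 3 * k := by
      rw [Nat.add_mul]
      omega
    calc T * (r + 1) = 40 * k * ((k / (r + 1) + 2) * (r + 1)) := by
          rw [hT]; unfold TT; ring
      _ ≤ 40 * k * (3 * k) := Nat.mul_le_mul_left _ h2
      _ = _ := by ring
  refine ⟨2 * N, fun V hV => ?_⟩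
  obtain ⟨V', hV'V, ⟨b, hb⟩, hV'2⟩ := avoid_three V
  have hNV' : N ≤ V'.card := by omega
  -- the product of the primes other than three
  set q : ℕ := ∏ p ∈ (range (T + 1)).filter (fun p => p.Prime ∧ p ≠ 3), p with hq
  have hq3 : ¬ 3 ∣ q := by
    intro h
    obtain ⟨p, hp, hd⟩ := (Nat.prime_three.prime.dvd_finsetProd_iff _).1 h
    have hp' := (mem_filter.1 hp).2
    exact hp'.2 ((Nat.prime_dvd_prime_iff_eq Nat.prime_three hp'.1).1 hd).symm
  have hbad := hN q (fun i => k ≤ i ∧ i ≤ k) (fun E => Occ r E)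
    (fun h h1 h2 => by
      obtain ⟨I, a1, a2, a3, a4⟩ := hbox h h1 (h2 3 Nat.prime_three hq3)
      exact ⟨I, a1, ⟨a2.ge, a2.le⟩, a3, a4⟩) V' hNV' (by
    intro p hp hpT hpq
    have h3 : p = 3 := by
      by_contra hne
      exact hpq (dvd_prod_of_mem (fun p => p) (mem_filter.2 ⟨mem_range.2 (by omega), hp, hne⟩))
    subst h3
    exact ⟨b, hb⟩)
  obtain ⟨s, hks, hsk, hsT, hcount⟩ := Pool.Agent.J6H13.RW.count_gen T k k (fun E => Occ r E) V'
    (hN1.trans hNV') hbad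
  have hsk' : s = k := le_antisymm hsk hks
  subst hsk'
  set G := (((V.powersetCard s).filter (fun E => Occ r E)).card : ℝ) with hG
  have hG' : (((V'.powersetCard s).filter (fun E => Occ r E)).card : ℝ) ≤ G := by
    rw [hG]
    have := card_le_card (filter_subset_filter (fun E => Occ r E) (powersetCard_mono (n := s) hV'V))
    exact_mod_cast this
  have hG0 : 0 ≤ G := Nat.cast_nonneg _
  have hs0 : (0 : ℝ) < s.factorial := by exact_mod_cast Nat.factorial_pos s
  have hspos : (0 : ℝ) < s := by exact_mod_cast hk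
  have h1 : (V'.card : ℝ) ^ s ≤ 4 ^ s * (T : ℝ) ^ s * G := by
    have h2 : (T.choose s : ℝ) * (s.factorial : ℝ) ≤ (T : ℝ) ^ s := by
      have := Nat.choose_le_pow_div (α := ℝ) s T
      rwa [le_div_iff₀ hs0] at this
    have h3 : 2 * ((s : ℝ) + 1) ≤ 4 ^ s := by
      have h4 : s + 1 ≤ 2 ^ s := Nat.lt_two_pow_self
      have h5 : (2 : ℝ) ≤ 2 ^ s := le_self_pow₀ (by norm_num) (by omega)
      have h6 : ((s : ℝ) + 1) ≤ 2 ^ s := by exact_mod_cast h4
      calc 2 * ((s : ℝ) + 1) ≤ 2 ^ s * 2 ^ s := by gcongr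
        _ = 4 ^ s := by rw [← mul_pow]; norm_num
    calc (V'.card : ℝ) ^ s ≤ 2 * ((s : ℝ) + 1) * (T.choose s : ℝ) * (s.factorial : ℝ) *
          (((V'.powersetCard s).filter (fun E => Occ r E)).card : ℝ) := hcount
      _ = 2 * ((s : ℝ) + 1) * ((T.choose s : ℝ) * (s.factorial : ℝ)) *
          (((V'.powersetCard s).filter (fun E => Occ r E)).card : ℝ) := by ring
      _ ≤ 4 ^ s * (T : ℝ) ^ s * G := by gcongr
  have h3 : (2 / 3 * (V.card : ℝ)) ^ s ≤ 4 ^ s * (T : ℝ) ^ s * G := by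
    refine le_trans (pow_le_pow_left₀ (by positivity) ?_ s) h1
    have : ((2 * V.card : ℕ) : ℝ) ≤ ((3 * V'.card : ℕ) : ℝ) := by exact_mod_cast hV'2
    push_cast at this
    linarith
  have h4 : (V.card.choose s : ℝ) * (s.factorial : ℝ) ≤ (V.card : ℝ) ^ s := by
    have := Nat.choose_le_pow_div (α := ℝ) s V.card
    rwa [le_div_iff₀ hs0] at this
  have h5 : ((s : ℝ) / Real.exp 1) ^ s ≤ s.factorial := by
    have h6 := Real.pow_div_factorial_le_exp (s : ℝ) hspos.le s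
    rw [div_pow, ← Real.exp_nat_mul, mul_one, div_le_iff₀ (Real.exp_pos _)]
    rw [div_le_iff₀ hs0] at h6
    linarith
  have hTpos : (0 : ℝ) < T := by exact_mod_cast (by omega : 0 < T)
  have h7 : (2 / 3 : ℝ) ^ s * (((s : ℝ) / Real.exp 1) ^ s * (V.card.choose s : ℝ)) ≤
      4 ^ s * (T : ℝ) ^ s * G := by
    calc (2 / 3 : ℝ) ^ s * (((s : ℝ) / Real.exp 1) ^ s * (V.card.choose s : ℝ))
        ≤ (2 / 3 : ℝ) ^ s * ((s.factorial : ℝ) * (V.card.choose s : ℝ)) := by gcongr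
      _ = (2 / 3 : ℝ) ^ s * ((V.card.choose s : ℝ) * (s.factorial : ℝ)) := by ring
      _ ≤ (2 / 3 : ℝ) ^ s * (V.card : ℝ) ^ s := by gcongr
      _ = (2 / 3 * (V.card : ℝ)) ^ s := by rw [mul_pow]
      _ ≤ _ := h3
  -- the base
  have h8 : 1 / (720 * Real.exp 1) * (((r : ℝ) + 1) / s) ≤ 2 / 3 * ((s : ℝ) / Real.exp 1) / (4 * T) := by
    have h10 : (T : ℝ) * (r + 1) ≤ 120 * (s : ℝ) ^ 2 := by exact_mod_cast hTr
    rw [le_div_iff₀ (by positivity)]
    calc 1 / (720 * Real.exp 1) * (((r : ℝ) + 1) / s) * (4 * T)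
        = ((T : ℝ) * (r + 1)) / (180 * s * Real.exp 1) := by
          field_simp
          ring
      _ ≤ (120 * (s : ℝ) ^ 2) / (180 * s * Real.exp 1) := by gcongr
      _ = 2 / 3 * ((s : ℝ) / Real.exp 1) := by
          field_simp
          ring
  calc (1 / (720 * Real.exp 1) * (((r : ℝ) + 1) / s)) ^ s * ((V.card).choose s : ℝ)
      ≤ (2 / 3 * ((s : ℝ) / Real.exp 1) / (4 * T)) ^ s * ((V.card).choose s : ℝ) := by
        gcongr
    _ = ((2 / 3 : ℝ) ^ s * (((s : ℝ) / Real.exp 1) ^ s * (V.card.choose s : ℝ))) / (4 * T) ^ s := by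
        rw [div_pow, mul_pow]
        ring
    _ ≤ (4 ^ s * (T : ℝ) ^ s * G) / (4 * T) ^ s := by gcongr
    _ = G := by
        rw [← mul_pow]
        exact mul_div_cancel_left₀ G (by positivity)

end Pool.Agent.J6H13.OR
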