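import Mathlib
import Pool.Agent.J6H13.OR.Orb
import Pool.Agent.TH779.Ord.Main
import Pool.Agent.TH779.Ord.Asym

/-! Orders of the gaps between the times of consecutive primes in orbits of `4 x + 1`. The proof is that of
`Pool.Agent.TH779.Ord.Main` and `Pool.Agent.TH779.Ord.Asym` (starting files). -/

set_option autoImplicit false

namespace Pool.Agent.J6H13.OR

open Finset Pool.Agent.TH779.Ord

/-- `0 = t 0 < t 1 < ... < t k` are the first `k + 1` times of primes of the orbit of `p` -/
def FirstTimes (k p : ℕ) (t : ℕ → ℕ) : Prop :=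
  t 0 = 0 ∧ (∀ i < k, t i < t (i + 1)) ∧ (∀ i ≤ k, (S^[t i] p).Prime) ∧
    ∀ y ≤ t k, (S^[y] p).Prime → ∃ i ≤ k, y = t i

/-- the orders of the first `k` gaps which occur for infinitely many primes -/
def PO (k : ℕ) : Set (Equiv.Perm (Fin k)) :=
  {π | {p : ℕ | p.Prime ∧ ∃ t : ℕ → ℕ, FirstTimes k p t ∧
    ∀ i j : Fin k, π i < π j ↔ t (i + 1) - t i < t (j + 1) - t j}.Infinite}

/-- the main step -/
theorem perm_many {k c N : ℕ} {lam : ℝ} (hlam : 1 ≤ lam) (hk : 1 ≤ k)
    (hc : (c : ℝ) ≤ k - 2 * k / lam) (hN : (k : ℝ) + 1 ≤ ((N + 1 : ℕ) : ℝ) / (40 * lam)) :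
    c.factorial ≤ (PO k).ncard * 2 ^ (k + N) := by
  classical
  obtain ⟨K, hK, hex⟩ := exact_orb (N + 1) lam (by omega) hlam
  have hfin : (PO k).Finite := Set.toFinite _
  rw [Set.ncard_eq_toFinset_card _ hfin]
  apply patterns_many
  intro σ
  set s : ℕ → ℕ := fun l => if h : l < N then (σ ⟨l, h⟩ : ℕ) else 0 with hs
  have hs' : ∀ (l : ℕ) (h : l < N), s l = (σ ⟨l, h⟩ : ℕ) := by
    intro l h
    rw [hs]
    simp only [h, dite_true]
  set M := (N + 1) * K with hM
  set B := 2 ^ M + N + 4 with hB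
  have hmono : StrictMono (hh s B K) := hh_strictMono s B K
  obtain ⟨J, hJ1, hJ2, hJ3⟩ := hex (fun x => 3 * hh s B K x)
    (by
      intro x _ y _ h
      exact hmono.injective (Nat.eq_of_mul_eq_mul_left (by norm_num) h))
    ⟨1, fun x _ hd => by omega⟩
  obtain ⟨e₀, he₀, π, hπ, x, y, hx, hy, hxy⟩ := block (by omega : 1 ≤ K) rfl hlam hk hc J hJ1
    (hN.trans hJ2) σ s hs' B (by rw [hB, ← hM, add_assoc]; exact Nat.le_add_right _ _)
    (by rw [hB]; exact Nat.le_add_left _ _)
    (by rw [hB]; exact (Nat.le_add_left N (2 ^ M)).trans (Nat.le_add_right _ _))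
  refine ⟨π, ?_, x, y, hx, hy, hxy⟩
  rw [Set.Finite.mem_toFinset]
  set r : ℕ → ℕ := fun i => 3 * hh s B K (el J (e₀ + i)) with hr
  have hrlt : ∀ i j, i < j → j ≤ k → r i < r j := by
    intro i j hij hj
    exact Nat.mul_lt_mul_of_pos_left (hmono (el_lt J (by omega) (by omega))) (by norm_num)
  have hr0 : ∀ i ≤ k, r 0 ≤ r i := by
    intro i hi
    rcases Nat.eq_zero_or_pos i with h | h
    · rw [h]
    · exact (hrlt 0 i h hi).le
  have hinj : Set.InjOn (fun n : ℕ => S^[r 0] n) {n : ℕ | (∀ x ∈ J, (S^[3 * hh s B K x] n).Prime) ∧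
          ∀ y : ℕ, (∃ x < (N + 1) * K, y ≤ 3 * hh s B K x) → (S^[y] n).Prime →
            ∃ x ∈ J, y = 3 * hh s B K x} := by
    intro n _ n' _ h
    simp only [iter] at h
    have h1 : 4 ^ r 0 * n = 4 ^ r 0 * n' := by omega
    exact Nat.eq_of_mul_eq_mul_left (by positivity) h1
  apply (hJ3.image hinj).mono
  rintro _ ⟨n, ⟨hn1, hn2⟩, rfl⟩
  have hit : ∀ i ≤ k, S^[r i - r 0] (S^[r 0] n) = S^[r i] n := by
    intro i hi
    rw [← Function.iterate_add_apply]
    congr 1
    have := hr0 i hi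
    omega
  have hpi : ∀ i ≤ k, (S^[r i] n).Prime := fun i hi => hn1 _ (el_mem J (by omega))
  refine ⟨hpi 0 (Nat.zero_le _), fun i => r i - r 0, ⟨Nat.sub_self _, ?_, ?_, ?_⟩, ?_⟩
  · intro i hi
    have h1 := hrlt i (i + 1) (by omega) hi
    have h2 := hr0 i hi.le
    simp only
    omega
  · intro i hi
    simp only
    rw [hit i hi]
    exact hpi i hi
  · intro z hz hp
    simp only at hz
    rw [← Function.iterate_add_apply] at hp
    have hzk : z + r 0 ≤ r k := by
      have := hr0 k le_rfl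
      omega
    obtain ⟨w, hw, hzw⟩ := hn2 (z + r 0) ⟨el J (e₀ + k), hJ1 _ (el_mem J he₀), hzk⟩ hp
    obtain ⟨e, he, hew⟩ := el_surj J hw
    rw [← hew] at hzw
    have hlt3 : ∀ u v : ℕ, u < v → 3 * u < 3 * v := fun u v h => by omega
    have h1 : e₀ ≤ e := by
      by_contra hcon
      push Not at hcon
      have := hlt3 _ _ (hmono (el_lt J hcon (by omega)))
      have h2 : r 0 = 3 * hh s B K (el J e₀) := rfl
      omega
    have h2 : e ≤ e₀ + k := by
      by_contra hcon
      push Not at hcon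
      have := hlt3 _ _ (hmono (el_lt J hcon he))
      have h2 : r k = 3 * hh s B K (el J (e₀ + k)) := rfl
      omega
    refine ⟨e - e₀, by omega, ?_⟩
    have h3 : r (e - e₀) = 3 * hh s B K (el J e) := by
      rw [hr]
      simp only
      rw [Nat.add_sub_cancel' h1]
    simp only
    rw [h3]
    omega
  · have hgap : ∀ i : Fin k, (r (i + 1) - r 0) - (r i - r 0) = 3 * gp s B K J (e₀ + i) := by
      intro i
      have h1 := hr0 i i.2.le
      have h2 := hr0 (i + 1) i.2
      have h3 : r i = 3 * hh s B K (el J (e₀ + i)) := rfl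
      have h4 : r (i + 1) = 3 * hh s B K (el J (e₀ + i + 1)) := rfl
      unfold gp
      rw [Nat.mul_sub, ← h3, ← h4]
      omega
    intro i j
    simp only
    rw [hgap i, hgap j, hπ i j]
    constructor
    · intro h
      have : gp s B K J (e₀ + i) < gp s B K J (e₀ + j) := h
      omega
    · intro h
      have : gp s B K J (e₀ + i) < gp s B K J (e₀ + j) := by omega
      exact this

theorem card_le (k : ℕ) : (PO k).ncard ≤ k.factorial := by
  classical
  have h1 : (PO k).ncard ≤ (Set.univ : Set (Equiv.Perm (Fin k))).ncard :=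
    Set.ncard_le_ncard (Set.subset_univ _) (Set.toFinite _)
  rwa [Set.ncard_univ, Nat.card_eq_fintype_card, Fintype.card_perm, Fintype.card_fin] at h1

theorem log_bound {k : ℕ} {lam : ℝ} (hlam : 2 ≤ lam) (hk : 1 ≤ k) :
    1 ≤ (PO k).ncard ∧
    Real.log k.factorial ≤ Real.log (PO k).ncard + (2 * k / lam + 1) * Real.log k +
      (k + 40 * lam * (k + 1) + 1) * Real.log 2 := by
  have hk1 : (1 : ℝ) ≤ k := by exact_mod_cast hk
  have hlam0 : (0 : ℝ) < lam := by linarith
  set N := ⌈40 * lam * ((k : ℝ) + 1)⌉₊ with hNd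
  set c := ⌊(k : ℝ) - 2 * k / lam⌋₊ with hcd
  have h0 : 0 ≤ (k : ℝ) - 2 * k / lam := by
    have : 2 * k / lam ≤ (k : ℝ) := by
      rw [div_le_iff₀ hlam0]
      nlinarith
    linarith
  have hc : (c : ℝ) ≤ k - 2 * k / lam := Nat.floor_le h0
  have hc2 : (k : ℝ) - 2 * k / lam < c + 1 := Nat.lt_floor_add_one _
  have hN1 : 40 * lam * ((k : ℝ) + 1) ≤ N := Nat.le_ceil _
  have hN2 : (N : ℝ) < 40 * lam * ((k : ℝ) + 1) + 1 := Nat.ceil_lt_add_one (by positivity)
  have hck : c ≤ k := by
    have h1 : 0 ≤ 2 * (k : ℝ) / lam := by positivity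
    have : (c : ℝ) ≤ k := by linarith
    exact_mod_cast this
  have hmain := perm_many (k := k) (c := c) (N := N) (lam := lam) (by linarith) hk hc (by
    rw [le_div_iff₀ (by positivity)]
    push_cast
    nlinarith)
  have hP : 1 ≤ (PO k).ncard := by
    by_contra hcon
    push Not at hcon
    have h1 : (PO k).ncard = 0 := by omega
    rw [h1, zero_mul] at hmain
    exact absurd (Nat.factorial_pos c) (by omega)
  refine ⟨hP, ?_⟩
  have hP' : (0 : ℝ) < (PO k).ncard := by exact_mod_cast hP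
  have h1 : Real.log c.factorial ≤ Real.log (PO k).ncard + (k + N) * Real.log 2 := by
    have h2 : (c.factorial : ℝ) ≤ (PO k).ncard * 2 ^ (k + N) := by exact_mod_cast hmain
    have h3 := Real.log_le_log (by exact_mod_cast Nat.factorial_pos c) h2
    rw [Real.log_mul hP'.ne' (by positivity), Real.log_pow] at h3
    push_cast at h3
    exact h3
  have h2 : Real.log k.factorial ≤ Real.log c.factorial + (k - c) * Real.log k := by
    have h3 : (k.factorial : ℝ) ≤ c.factorial * (k : ℝ) ^ (k - c) := by exact_mod_cast fact_le hck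
    have h4 := Real.log_le_log (by exact_mod_cast Nat.factorial_pos k) h3
    have hcf : (0 : ℝ) < c.factorial := by exact_mod_cast Nat.factorial_pos c
    rw [Real.log_mul hcf.ne' (by positivity), Real.log_pow, Nat.cast_sub hck] at h4
    exact h4
  have hlogk : 0 ≤ Real.log k := Real.log_nonneg hk1
  have hlog2 : 0 ≤ Real.log 2 := Real.log_nonneg (by norm_num)
  have h3 : ((k : ℝ) - c) * Real.log k ≤ (2 * k / lam + 1) * Real.log k :=
    mul_le_mul_of_nonneg_right (by linarith) hlogk
  have h4 : ((k : ℝ) + N) * Real.log 2 ≤ (k + 40 * lam * (k + 1) + 1) * Real.log 2 :=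
    mul_le_mul_of_nonneg_right (by linarith) hlog2
  linarith

/-- the explicit form -/
theorem explicit {k : ℕ} (hk : 1 ≤ k) :
    (k.factorial : ℝ) * Real.exp (-(150 * k * Real.sqrt (Real.log k))) ≤ (PO k).ncard := by
  have hk1 : (1 : ℝ) ≤ k := by exact_mod_cast hk
  set L := Real.log k with hL
  have hL0 : 0 ≤ L := Real.log_nonneg hk1
  set s := Real.sqrt L with hs
  have hs0 : 0 ≤ s := Real.sqrt_nonneg _
  have hsL : s * s = L := Real.mul_self_sqrt hL0
  obtain ⟨hP, hb1⟩ := log_bound (k := k) (lam := 2 + s) (by linarith) hk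
  have hP' : (0 : ℝ) < (PO k).ncard := by exact_mod_cast hP
  rcases Nat.lt_or_ge k 2 with h2 | h2
  · have h3 : k = 1 := by omega
    subst h3
    have h4 : L = 0 := by rw [hL, Nat.cast_one, Real.log_one]
    have h5 : s = 0 := by rw [hs, h4, Real.sqrt_zero]
    rw [h5, mul_zero, neg_zero, Real.exp_zero, mul_one, Nat.factorial_one]
    exact_mod_cast hP
  · have hk2 : (2 : ℝ) ≤ k := by exact_mod_cast h2
    have hlog2 : Real.log 2 < 0.6932 := by
      have := Real.log_two_lt_d9
      linarith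
    have hlog2' : 0.69 < Real.log 2 := by
      have := Real.log_two_gt_d9
      linarith
    have hL2 : 0.69 < L := hlog2'.trans_le (Real.log_le_log (by norm_num) hk2)
    have hs1 : 0.83 ≤ s := by
      rw [hs]
      apply Real.le_sqrt_of_sq_le
      norm_num
      linarith
    have hsk : s ≤ k := by
      rw [hs, Real.sqrt_le_left (by linarith)]
      have := Real.log_le_sub_one_of_pos (show (0 : ℝ) < k by linarith)
      nlinarith
    have e1 : 2 * k / (2 + s) * L ≤ 2 * (k * s) := by
      rw [div_mul_eq_mul_div, div_le_iff₀ (by linarith), ← hsL]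
      have : 0 ≤ (k : ℝ) * s := by positivity
      nlinarith
    have e2 : L ≤ k * s := by
      rw [← hsL]
      exact mul_le_mul_of_nonneg_right hsk hs0
    have e3 : ((k : ℝ) + 40 * (2 + s) * (k + 1) + 1) * Real.log 2 ≤ 147 * (k * s) := by
      have h1 : (k : ℝ) + 40 * (2 + s) * (k + 1) + 1 ≤ 121.5 * k + 60 * (k * s) := by nlinarith
      have h3 : (k : ℝ) * 0.83 ≤ k * s := mul_le_mul_of_nonneg_left hs1 (by linarith)
      have h4 : 0 ≤ 121.5 * (k : ℝ) + 60 * (k * s) := by positivity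
      have h5 : ((k : ℝ) + 40 * (2 + s) * (k + 1) + 1) * Real.log 2 ≤
          (121.5 * k + 60 * (k * s)) * 0.6932 := by
        calc _ ≤ (121.5 * (k : ℝ) + 60 * (k * s)) * Real.log 2 :=
              mul_le_mul_of_nonneg_right h1 (by linarith)
          _ ≤ _ := mul_le_mul_of_nonneg_left hlog2.le h4
      linarith
    have e4 : (2 * k / (2 + s) + 1) * L = 2 * k / (2 + s) * L + L := by ring
    have e5 : Real.log k.factorial ≤ Real.log (PO k).ncard + 150 * k * s := by linarith
    have hf : (0 : ℝ) < k.factorial := by exact_mod_cast Nat.factorial_pos k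
    rw [← Real.log_le_log_iff (by positivity) hP', Real.log_mul hf.ne' (Real.exp_pos _).ne',
      Real.log_exp]
    linarith

end Pool.Agent.J6H13.OR
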